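import Pool.Agent.W2helper31.BE.Stm

/-!
# PIECE RADS of project BE: symmetry of Rademacher sums
-/

set_option autoImplicit false

namespace Pool.Agent.W2helper85.BE

open Pool.Agent.W2helper31.BE

variable {n : ℕ} (a : Fin n → ℝ)

lemma flt_le_fle (x : ℝ) : Flt a x ≤ Fle a x := by
  unfold Flt Fle
  refine div_le_div_of_nonneg_right ?_ (by positivity)
  exact_mod_cast Finset.card_le_card fun ε hε => by
    rw [Finset.mem_filter] at hε ⊢
    exact ⟨hε.1, hε.2.le⟩

lemma fle_le_flt {x y : ℝ} (h : x < y) : Fle a x ≤ Flt a y := by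
  unfold Flt Fle
  refine div_le_div_of_nonneg_right ?_ (by positivity)
  exact_mod_cast Finset.card_le_card fun ε hε => by
    rw [Finset.mem_filter] at hε ⊢
    exact ⟨hε.1, hε.2.trans_lt h⟩

lemma fle_mono {x y : ℝ} (h : x ≤ y) : Fle a x ≤ Fle a y := by
  unfold Fle
  refine div_le_div_of_nonneg_right ?_ (by positivity)
  exact_mod_cast Finset.card_le_card fun ε hε => by
    rw [Finset.mem_filter] at hε ⊢
    exact ⟨hε.1, hε.2.trans h⟩

lemma fle_le_one (x : ℝ) : Fle a x ≤ 1 := by
  unfold Fle
  rw [div_le_one (by positivity)]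
  have h : (Finset.univ.filter
    (fun ε : Fin n → Bool => ∑ i, (if ε i then a i else -a i) ≤ x)).card ≤ 2 ^ n := by
    refine (Finset.card_le_univ _).trans ?_
    simp
  exact_mod_cast h

lemma add_eq (x : ℝ) : Fle a x + Flt a (-x) = 1 := by
  have h1 : (Finset.univ.filter
      (fun ε : Fin n → Bool => ∑ i, (if ε i then a i else -a i) < -x)).card =
      (Finset.univ.filter
      (fun ε : Fin n → Bool => ¬ ∑ i, (if ε i then a i else -a i) ≤ x)).card := by
    refine Finset.card_bij' (fun ε _ i => !ε i) (fun ε _ i => !ε i) ?_ ?_ ?_ ?_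
    · intro ε hε
      rw [Finset.mem_filter] at hε ⊢
      refine ⟨Finset.mem_univ _, ?_⟩
      have h2 : ∑ i, (if (!ε i) = true then a i else -a i) =
          -∑ i, (if ε i = true then a i else -a i) := by
        rw [← Finset.sum_neg_distrib]
        refine Finset.sum_congr rfl fun i _ => ?_
        cases ε i <;> simp
      rw [not_le, h2]
      linarith [hε.2]
    · intro ε hε
      rw [Finset.mem_filter] at hε ⊢
      refine ⟨Finset.mem_univ _, ?_⟩
      have h2 : ∑ i, (if (!ε i) = true then a i else -a i) =
          -∑ i, (if ε i = true then a i else -a i) := by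
        rw [← Finset.sum_neg_distrib]
        refine Finset.sum_congr rfl fun i _ => ?_
        cases ε i <;> simp
      have h3 := hε.2
      rw [not_le] at h3
      rw [h2]
      linarith
    · intro ε _
      funext i
      simp
    · intro ε _
      funext i
      simp
  have h2 := Finset.card_filter_add_card_filter_not (s := (Finset.univ : Finset (Fin n → Bool)))
    (fun ε : Fin n → Bool => ∑ i, (if ε i then a i else -a i) ≤ x)
  unfold Fle Flt
  rw [← add_div, h1, div_eq_one_iff_eq (by positivity)]
  have h3 : (Finset.univ : Finset (Fin n → Bool)).card = 2 ^ n := by simp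
  rw [h3] at h2
  exact_mod_cast h2

/-- RADS -/
theorem p_RADS : P_RADS := by
  intro n a
  refine ⟨add_eq a, fun x hx => ?_, fun x hx => ?_, fun x hx => ?_, flt_le_fle a, fle_le_one a⟩
  · have h1 := add_eq a x
    have h2 := (flt_le_fle a (-x)).trans (fle_mono a (show -x ≤ x by linarith))
    linarith
  · have h1 := add_eq a (-x)
    rw [neg_neg] at h1
    have h2 := fle_le_flt a (show -x < x by linarith)
    linarith
  · have h1 := add_eq a x
    have h2 := fle_le_flt a (show x < -x by linarith)
    linarith

end Pool.Agent.W2helper85.BE
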